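import Pool.Agent.H304Z.NH.Spec3

set_option autoImplicit false
set_option linter.unusedSectionVars false
set_option linter.unusedVariables false

namespace Pool.Agent.H144Z.NH

open Pool.Agent.H304Z.NH Matrix Finset Filter Topology
open scoped MatrixOrder ComplexOrder

section basic

variable {n : Type} [Fintype n] [DecidableEq n] {ι : Type} [Fintype ι]

theorem LL_nonneg (y : ι → Mat n) : 0 ≤ LL y := sum_nonneg fun a _ => mul_star_nonneg _

theorem RR_nonneg (y : ι → Mat n) : 0 ≤ RR y := sum_nonneg fun a _ => star_mul_nonneg _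

theorem tr_LL (y : ι → Mat n) : tr (LL y) = AA y := by
  rw [LL, tr_sum, AA]
  exact sum_congr rfl fun a _ => (nsq_eq' _).symm

theorem tr_RR (y : ι → Mat n) : tr (RR y) = AA y := by
  rw [RR, tr_sum, AA]
  rfl

theorem le_smul_one {a U : Mat n} {m : ℝ} (hm : 0 ≤ m) (hU : IsProj U) (h : a ≤ m • U) :
    a ≤ m • (1 : Mat n) := h.trans (rsmul_le hm hU.le_one)

theorem sum_left {y : ι → Mat n} {m : ℝ} (h : LL y ≤ m • (1 : Mat n)) (x : Mat n) :
    ∑ a, nsq (x * y a) ≤ m * nsq x := by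
  have e : ∑ a, nsq (x * y a) = tr (xᴴ * x * LL y) := by
    rw [LL, Finset.mul_sum, tr_sum]
    exact sum_congr rfl fun a _ => nsq_mul _ _
  have := tr_mul_le (star_mul_nonneg x) h
  rw [Matrix.mul_smul, Matrix.mul_one, tr_smul] at this
  rw [e]
  exact this

theorem sum_right {y : ι → Mat n} {m : ℝ} (h : RR y ≤ m • (1 : Mat n)) (x : Mat n) :
    ∑ a, nsq (y a * x) ≤ m * nsq x := by
  have e : ∑ a, nsq (y a * x) = tr (RR y * (x * xᴴ)) := by
    rw [RR, Finset.sum_mul, tr_sum]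
    exact sum_congr rfl fun a _ => nsq_mul _ _
  have := tr_mul_le' (mul_star_nonneg x) h
  rw [Matrix.smul_mul, Matrix.one_mul, tr_smul, ← nsq_eq'] at this
  rw [e]
  exact this

theorem supp {a U : Mat n} {m : ℝ} (hU : IsProj U) (ha : 0 ≤ a) (h : a ≤ m • U) :
    a * U = a ∧ U * a = a := by
  have h1 : a * U = a := by
    obtain ⟨c, rfl⟩ := CStarAlgebra.nonneg_iff_eq_star_mul_self.mp ha
    have h2 := tr_mono (conj_le h (1 - U))
    have e1 : (1 - U)ᴴ * m • U * (1 - U) = 0 := by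
      rw [Matrix.mul_assoc, Matrix.smul_mul, Matrix.mul_sub, Matrix.mul_one, hU.2, sub_self,
        smul_zero, Matrix.mul_zero]
    rw [e1, tr_zero] at h2
    have e2 : nsq (c * (1 - U)) = tr ((1 - U)ᴴ * (star c * c) * (1 - U)) := by
      rw [nsq_eq, conjTranspose_mul, star_eq_conjTranspose]
      simp only [Matrix.mul_assoc]
    have e3 := nsq_eq_zero (le_antisymm (e2 ▸ h2) (nsq_nonneg _))
    rw [Matrix.mul_sub, Matrix.mul_one, sub_eq_zero] at e3
    rw [Matrix.mul_assoc, ← e3]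
  refine ⟨h1, ?_⟩
  have := congrArg conjTranspose h1
  rwa [conjTranspose_mul, hU.1, herm ha] at this

theorem AA_le {y : ι → Mat n} {U : Mat n} {m : ℝ} (h : LL y ≤ m • U) : AA y ≤ m * tr U := by
  rw [← tr_LL, ← tr_smul]
  exact tr_mono h

theorem conj_feas {L M U r : Mat n} {m : ℝ} (hm : 0 ≤ m) (hU : IsProj U) (hr : IsU r)
    (hL : L ≤ m • U) (hM : M ≤ U * (rᴴ * L * r) * U) : M ≤ m • U := by
  refine hM.trans ?_
  have h1 := conj_le (le_smul_one hm hU hL) r
  have h2 := conj_le h1 U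
  rw [hU.1, Matrix.mul_smul, Matrix.mul_one, Matrix.smul_mul, hr.1, Matrix.mul_smul,
    Matrix.mul_one, Matrix.smul_mul, hU.2] at h2
  exact h2

theorem par {L M U r : Mat n} {m : ℝ} (hU : IsProj U) (hr : IsU r) (hL0 : 0 ≤ L)
    (hL : L ≤ m • U) (hM0 : 0 ≤ M) (hM : M ≤ U * (rᴴ * L * r) * U) :
    nsq ((1 / 2 : ℝ) • L + (1 / 2 : ℝ) • M) ≤ nsq L - nsq (cm r L) / 4 := by
  obtain ⟨s1, s2⟩ := supp hU hL0 hL
  have h1 : nsq ((1 / 2 : ℝ) • L + (1 / 2 : ℝ) • M) ≤
      nsq ((1 / 2 : ℝ) • L + (1 / 2 : ℝ) • (U * (rᴴ * L * r) * U)) :=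
    nsq_mono (add_nonneg (rsmul_nonneg (by norm_num) hL0) (rsmul_nonneg (by norm_num) hM0))
      (add_le_add le_rfl (rsmul_le (by norm_num) hM))
  rw [← smul_add (1 / 2 : ℝ) L (U * (rᴴ * L * r) * U), nsq_smul, nsq_add L] at h1
  have h2 : nsq (U * (rᴴ * L * r) * U) ≤ nsq L := by
    refine (nsq_mul_le_right hU.mul_star_le _).trans ((nsq_mul_le_left hU.star_mul_le _).trans ?_)
    rw [nsq_mul_U hr, nsq_U_mul hr.star]
  have h3 : tr (Lᴴ * (U * (rᴴ * L * r) * U)) = tr ((r * L)ᴴ * (L * r)) := by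
    rw [conjTranspose_mul, herm hL0, ← Matrix.mul_assoc L, tr_comm _ U, ← Matrix.mul_assoc L, s1,
      ← Matrix.mul_assoc U, s2]
    simp only [Matrix.mul_assoc]
  have h4 : nsq (cm r L) = 2 * nsq L - 2 * tr ((r * L)ᴴ * (L * r)) := by
    rw [cm, nsq_sub, nsq_U_mul hr, nsq_mul_U hr]
    ring
  rw [h3] at h1
  rw [h4]
  linarith

/-- the union of two families, rescaled -/
noncomputable def un (y z : ι → Mat n) : ι ⊕ ι → Mat n :=
  Sum.elim (fun a => Real.sqrt (1 / 2) • y a) (fun a => Real.sqrt (1 / 2) • z a)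

theorem sq_half : Real.sqrt (1 / 2) ^ 2 = 1 / 2 := Real.sq_sqrt (by norm_num)

theorem mul_half : Real.sqrt (1 / 2) * Real.sqrt (1 / 2) = 1 / 2 :=
  Real.mul_self_sqrt (by norm_num)

theorem AA_un (y z : ι → Mat n) : AA (un y z) = (AA y + AA z) / 2 := by
  simp only [AA, un, Fintype.sum_sum_type, Sum.elim_inl, Sum.elim_inr, nsq_smul, sq_half,
    ← Finset.mul_sum]
  ring

theorem LL_un (y z : ι → Mat n) : LL (un y z) = (1 / 2 : ℝ) • LL y + (1 / 2 : ℝ) • LL z := by
  simp only [LL, un, Fintype.sum_sum_type, Sum.elim_inl, Sum.elim_inr, rsmul_star,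
    Matrix.smul_mul, Matrix.mul_smul, smul_smul, mul_half, Finset.smul_sum]

theorem RR_un (y z : ι → Mat n) : RR (un y z) = (1 / 2 : ℝ) • RR y + (1 / 2 : ℝ) • RR z := by
  simp only [RR, un, Fintype.sum_sum_type, Sum.elim_inl, Sum.elim_inr, rsmul_star,
    Matrix.smul_mul, Matrix.mul_smul, smul_smul, mul_half, Finset.smul_sum]

theorem EE_un {G : Type} (v : G → Mat n) (S : Finset G) (y z : ι → Mat n) :
    EE v S (un y z) = (EE v S y + EE v S z) / 2 := by
  simp only [EE, en, un, Fintype.sum_sum_type, Sum.elim_inl, Sum.elim_inr, cm_smul, nsq_smul,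
    sq_half, ← Finset.mul_sum]
  ring

theorem Bes_un {y z : ι → Mat n} (hy : Bes y) (hz : Bes z) : Bes (un y z) := by
  intro x
  have e : ∀ w : Mat n, ‖trace ((Real.sqrt (1 / 2) • w)ᴴ * x)‖ ^ 2 =
      1 / 2 * ‖trace (wᴴ * x)‖ ^ 2 := by
    intro w
    rw [rsmul_star, Matrix.smul_mul, trace_smul, norm_smul, mul_pow, Real.norm_eq_abs, sq_abs,
      sq_half]
  simp only [un, Fintype.sum_sum_type, Sum.elim_inl, Sum.elim_inr, e, ← Finset.mul_sum]
  linarith [hy x, hz x]

theorem half_le {a b c : Mat n} (ha : a ≤ c) (hb : b ≤ c) :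
    (1 / 2 : ℝ) • a + (1 / 2 : ℝ) • b ≤ c := by
  refine (add_le_add (rsmul_le (by norm_num) ha) (rsmul_le (by norm_num) hb)).trans (le_of_eq ?_)
  rw [← add_smul]
  norm_num

theorem nsq_compl_left {p : Mat n} (hp : IsProj p) (x : Mat n) :
    nsq ((1 - p) * x) = nsq x - nsq (p * x) := by
  rw [hp.compl.nsq_mul', hp.nsq_mul', Matrix.mul_sub, Matrix.mul_one, tr_sub, nsq_eq']

theorem nsq_compl_right {p : Mat n} (hp : IsProj p) (x : Mat n) :
    nsq (x * (1 - p)) = nsq x - nsq (x * p) := by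
  rw [hp.compl.nsq_mul, hp.nsq_mul, Matrix.mul_sub, Matrix.mul_one, tr_sub, nsq_eq]

theorem cut_le {L U p : Mat n} {m m' : ℝ} (hm' : 0 ≤ m') (hU : IsProj U) (hp : IsProj p)
    (hpU : p * U = p) (hL0 : 0 ≤ L) (hL : L ≤ m • U)
    (h : (1 - p) * L * (1 - p) ≤ m' • (1 - p)) : (1 - p) * L * (1 - p) ≤ m' • U := by
  obtain ⟨s1, s2⟩ := supp hU hL0 hL
  have hUp : U * p = p := by
    have := congrArg conjTranspose hpU
    rwa [conjTranspose_mul, hU.1, hp.1] at this
  have h1 := conj_le (h.trans (rsmul_le hm' hp.compl.le_one)) U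
  rw [hU.1, Matrix.mul_smul, Matrix.mul_one, Matrix.smul_mul, hU.2] at h1
  have c1 : U * (1 - p) = (1 - p) * U := by
    rw [Matrix.mul_sub, Matrix.sub_mul, hUp, hpU, Matrix.mul_one, Matrix.one_mul]
  have e : U * ((1 - p) * L * (1 - p)) * U = (1 - p) * L * (1 - p) := by
    calc U * ((1 - p) * L * (1 - p)) * U = (U * (1 - p)) * L * ((1 - p) * U) := by
          simp only [Matrix.mul_assoc]
      _ = (1 - p) * (U * L * U) * (1 - p) := by
          rw [c1]
          conv_lhs => rw [← c1]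
          rw [c1]
          conv_lhs => enter [2]; rw [← c1]
          simp only [Matrix.mul_assoc]
      _ = (1 - p) * L * (1 - p) := by rw [s2, s1]
  rwa [e] at h1

theorem hyp_mono {G : Type} [Group G] {u : G → Mat n} {U : Mat n} {W W' : Finset G} {ω : ℝ}
    (h : Hyp u U W' ω) (hW : W ⊆ W') : Hyp u U W ω :=
  ⟨h.1, h.2.1, h.2.2.1, h.2.2.2.1, fun g hg k hk => h.2.2.2.2.1 g (hW hg) k (hW hk),
    fun g hg => h.2.2.2.2.2 g (hW hg)⟩

end basic

theorem ev_small {G : Type} [DecidableEq G] (B ζ : ℝ) (hζ : 0 < ζ) :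
    ∀ᶠ p : ℝ × Finset G in 𝓝[>] 0 ×ˢ atTop, 0 < p.1 ∧ B * p.1 ≤ ζ := by
  have h1 : ∀ᶠ η : ℝ in 𝓝[>] 0, 0 < η ∧ B * η ≤ ζ := by
    have hc : Continuous fun η : ℝ => B * η := by fun_prop
    have h2 : ∀ᶠ η : ℝ in 𝓝 0, B * η < ζ :=
      hc.continuousAt.eventually_lt continuousAt_const (by simpa using hζ)
    filter_upwards [self_mem_nhdsWithin, h2.filter_mono nhdsWithin_le_nhds] with η a b
    exact ⟨a, b.le⟩
  exact h1.prod_inl _

theorem ev_sub {G : Type} [DecidableEq G] (W : Finset G) :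
    ∀ᶠ p : ℝ × Finset G in 𝓝[>] 0 ×ˢ atTop, W ⊆ p.2 :=
  (eventually_ge_atTop W).prod_inr _

theorem stepC (hLC : S_LC) {G : Type} [Group G] [DecidableEq G] (S : Finset G) (θ : G →* G)
    (hS : Subgroup.closure (S : Set G) = ⊤) (r : G) (hr : ∀ g, ∃ g', r * θ g * r⁻¹ = θ g')
    (K ζ : ℝ) (hK : 0 ≤ K) (hζ : 0 < ζ) :
    ∀ᶠ p : ℝ × Finset G in 𝓝[>] 0 ×ˢ atTop,
      ∀ (n : Type) [Fintype n] [DecidableEq n] (u : G → Mat n) (U : Mat n), Hyp u U p.2 p.1 →
        ∀ m F : ℝ, 0 < m → Bnd (fun g => u (θ g)) S U K p.1 F m →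
        ∀ (ι : Type) [Fintype ι] (y : ι → Mat n), Feas U m y →
          EE (fun g => u (θ g)) S y ≤ p.1 * (m * tr U) →
          (F - p.1) * (2 * m ^ 2 * tr U) ≤ 4 * m * AA y - nsq (LL y) - nsq (RR y) →
          nsq (cm (u r) (LL y)) ≤ ζ * (m ^ 2 * tr U) ∧
            nsq (cm (u r) (RR y)) ≤ ζ * (m ^ 2 * tr U) := by
  obtain ⟨W, C, hC, hW⟩ := hLC G S θ r 1 hS hr (fun g => by rw [one_mul, mul_one])
  set t : ℝ := ζ / 48 with ht
  have ht0 : 0 < t := by positivity
  filter_upwards [ev_sub W,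
    ev_small (G := G) (8 + (1 + 1 / t) * (16 + 8 * K * (1 + 2 * C) + 8 * C)) (ζ / 2)
      (by positivity)] with p hp1 hp2
  obtain ⟨η, W'⟩ := p
  simp only at hp1 hp2 ⊢
  intro n _ _ u U hH m F hm hB ι _ y hy hE hO
  obtain ⟨b1, b2, b3, b4, b5⟩ := hW η hp2.1.le n u U (hyp_mono hH hp1) m hm ι y hy
  have hU := hH.2.2.1
  have hu := hH.1 r
  have hn := hH.2.2.2.1
  simp only [hH.2.1, Matrix.one_mul] at b1 b2 b3 b4 b5
  set z : ι → Mat n := fun a => U * ((u r)ᴴ * y a * u r) * U with hz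
  have f1 := conj_feas hm.le hU hu hy.2.1 b2
  have f2 := conj_feas hm.le hU hu hy.2.2 b3
  have hw : Feas U m (un y z) := by
    refine ⟨Bes_un hy.1 b1, ?_, ?_⟩
    · rw [LL_un]; exact half_le hy.2.1 f1
    · rw [RR_un]; exact half_le hy.2.2 f2
  have k1 := hB _ (un y z) hw t ht0
  have k2 := par hU hu (LL_nonneg y) hy.2.1 (LL_nonneg z) b2
  have k3 := par hU hu (RR_nonneg y) hy.2.2 (RR_nonneg z) b3
  rw [AA_un, LL_un, RR_un, EE_un] at k1
  have k4 : AA y ≤ (1 + t) * AA z + (1 + 1 / t) * (C * (η * (m * tr U))) := by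
    have e : ∀ a, nsq (y a) ≤ (1 + t) * nsq (z a) +
        (1 + 1 / t) * nsq ((u r)ᴴ * y a * u r - z a) := by
      intro a
      have := nsq_add_le_t t ht0 (z a) ((u r)ᴴ * y a * u r - z a)
      rwa [add_sub_cancel, nsq_mul_U hu, nsq_U_mul hu.star] at this
    have e2 := sum_le_sum fun a (_ : a ∈ (univ : Finset ι)) => e a
    rw [sum_add_distrib, ← Finset.mul_sum, ← Finset.mul_sum] at e2
    have e3 := mul_le_mul_of_nonneg_left b4 (show 0 ≤ 1 + 1 / t by positivity)
    exact e2.trans (add_le_add le_rfl e3)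
  have k5 : AA z ≤ m * tr U := AA_le f1
  have k6 : EE (fun g => u (θ g)) S z ≤ C * (2 * (η * (m * tr U))) := by
    refine b5.trans (mul_le_mul_of_nonneg_left ?_ hC)
    linarith
  have k7 : 4 * m * (1 + 1 / t) * K * ((EE (fun g => u (θ g)) S y + EE (fun g => u (θ g)) S z) / 2)
      ≤ 4 * m * (1 + 1 / t) * K * ((1 + 2 * C) * (η * (m * tr U)) / 2) :=
    mul_le_mul_of_nonneg_left (by linarith) (by positivity)
  have k8 : m * AA y ≤ m * AA z + t * (m * (m * tr U)) +
      m * ((1 + 1 / t) * (C * (η * (m * tr U)))) := by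
    have a1 := mul_le_mul_of_nonneg_left k4 hm.le
    have a2 := mul_le_mul_of_nonneg_left k5 (mul_nonneg ht0.le hm.le)
    nlinarith
  have k9 := mul_le_mul_of_nonneg_right hp2.2 (show 0 ≤ m ^ 2 * tr U by positivity)
  have k10 : nsq (cm (u r) (LL y)) + nsq (cm (u r) (RR y)) ≤ ζ * (m ^ 2 * tr U) := by
    have e1 : ζ = 48 * t := by rw [ht]; ring
    generalize 1 + 1 / t = s at *
    rw [e1] at k9 ⊢
    nlinarith
  constructor
  · linarith [nsq_nonneg (cm (u r) (RR y))]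
  · linarith [nsq_nonneg (cm (u r) (LL y))]

theorem stepD (hTH : S_TH) (hCL : S_CL) {G : Type} [Group G] [DecidableEq G] (S T : Finset G)
    (hS : ∀ s ∈ S, s ∈ Subgroup.closure (T : Set G)) (γ β : ℝ) (hγ : 0 < γ) (hβ : 0 < β) :
    ∃ ζ : ℝ, 0 < ζ ∧ ∀ᶠ p : ℝ × Finset G in 𝓝[>] 0 ×ˢ atTop,
      ∀ (n : Type) [Fintype n] [DecidableEq n] (u : G → Mat n) (U : Mat n), Hyp u U p.2 p.1 →
        Irr u S γ U → ∀ m : ℝ, 0 < m → ∀ f : Mat n, 0 ≤ f → f ≤ m • U →
        tr f ≤ 41 / 1000 * (m * tr U) → (∀ r ∈ T, nsq (cm (u r) f) ≤ ζ * (m ^ 2 * tr U)) →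
        ∃ q : Mat n, IsProj q ∧ tr q ≤ tr U / 1000 ∧ (1 - q) * f * (1 - q) ≤ (m / 10) • U ∧
          ∀ r ∈ T, nsq (cm (u r) q) ≤ β * tr U := by
  choose W C hC hW using fun s : {s // s ∈ S} => hCL G T s.1 (hS s.1 s.2)
  have hC0 : 0 ≤ ∑ s, C s := sum_nonneg fun s _ => hC s
  set β' : ℝ := min β (γ / (2 * (∑ s, C s + 1))) with hβ'
  have hβ0 : 0 < β' := lt_min hβ (by positivity)
  have hβ1 : β' ≤ β := min_le_left _ _
  have hβ2 : (∑ s, C s) * β' ≤ γ / 2 := by
    have h1 : β' ≤ γ / (2 * (∑ s, C s + 1)) := min_le_right _ _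
    rw [le_div_iff₀ (by positivity)] at h1
    nlinarith
  obtain ⟨N, hN⟩ := exists_nat_gt (2 * T.card / β')
  have hN0 : (0 : ℝ) < N := lt_of_le_of_lt (by positivity) hN
  have hN1 : 0 < N := by exact_mod_cast hN0
  refine ⟨β' / (2 * ((200 * N) ^ 2 * T.card + 1)), by positivity, ?_⟩
  filter_upwards [(eventually_all_finset univ).2 fun s _ => ev_sub (W s),
    ev_small (G := G) (∑ s, C s) (γ / 2) (by positivity)] with p hp1 hp2
  obtain ⟨η, W'⟩ := p
  simp only at hp1 hp2 ⊢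
  intro n _ _ u U hH hI m hm f hf0 hf1 hf2 hf3
  have hU := hH.2.2.1
  have hn := hH.2.2.2.1
  obtain ⟨q, q1, -, q3, q4, q5⟩ := hTH n {r // r ∈ T} (fun r => u r.1) (fun r => hH.1 _)
    (m⁻¹ • f) (rsmul_nonneg (by positivity) hf0) (9 / 100) (1 / 10) (by norm_num) (by norm_num)
    N hN1
  have hx : m⁻¹ • f ≤ U := by
    have := rsmul_le (show 0 ≤ m⁻¹ by positivity) hf1
    rwa [smul_smul, inv_mul_cancel₀ hm.ne', one_smul] at this
  have hqU : q * U = q := by
    have h1 : q ≤ (100 / 9 : ℝ) • U := by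
      have := rsmul_le (show (0 : ℝ) ≤ 100 / 9 by norm_num) (q3.trans hx)
      rw [smul_smul] at this
      norm_num at this ⊢
      exact this
    exact (supp hU q1.nonneg h1).1
  have hUq : U * q = q := by
    have := congrArg conjTranspose hqU
    rwa [conjTranspose_mul, hU.1, q1.1] at this
  have htr : tr (m⁻¹ • f) ≤ 41 / 1000 * tr U := by
    rw [tr_smul, inv_mul_le_iff₀ hm]
    linarith
  have hq2 : tr q ≤ tr U / 2 := by
    have := tr_mono q3
    rw [tr_smul] at this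
    linarith
  have hen : en u T q ≤ β' * tr U := by
    have e1 : en u T q = ∑ k : {r // r ∈ T}, nsq (cm (u k.1) q) :=
      (sum_coe_sort T fun r => nsq (cm (u r) q)).symm
    rw [e1]
    refine q5.trans ?_
    have a1 : ∑ k : {r // r ∈ T}, nsq (cm (u k.1) (m⁻¹ • f)) ≤
        T.card * (β' / (2 * ((200 * N) ^ 2 * T.card + 1)) * tr U) := by
      have := sum_le_card_nsmul (univ : Finset {r // r ∈ T})
        (fun k => nsq (cm (u k.1) (m⁻¹ • f))) (β' / (2 * ((200 * N) ^ 2 * T.card + 1)) * tr U) (by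
          intro k _
          rw [cm_smul, nsq_smul, inv_pow, inv_mul_le_iff₀ (by positivity)]
          linarith [hf3 k.1 k.2])
      rwa [card_univ, Fintype.card_coe, nsmul_eq_mul] at this
    have a2 : (2 * (N : ℝ) / (1 / 10 - 9 / 100)) ^ 2 = (200 * N) ^ 2 := by ring
    have a3 : (200 * (N : ℝ)) ^ 2 * (T.card * (β' / (2 * ((200 * N) ^ 2 * T.card + 1)) * tr U)) ≤
        β' / 2 * tr U := by
      have b1 : (200 * (N : ℝ)) ^ 2 * T.card * (β' / (2 * ((200 * N) ^ 2 * T.card + 1))) ≤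
          β' / 2 := by
        rw [← mul_div_assoc, div_le_div_iff₀ (by positivity) (by positivity)]
        nlinarith
      have := mul_le_mul_of_nonneg_right b1 hn.le
      linarith
    have a4 : (Fintype.card {r // r ∈ T} : ℝ) * tr (m⁻¹ • f) / (9 / 100 * N) ≤ β' / 2 * tr U := by
      rw [Fintype.card_coe, div_le_iff₀ (by positivity)]
      rw [div_lt_iff₀ hβ0] at hN
      have b1 := mul_le_mul_of_nonneg_left htr (Nat.cast_nonneg (α := ℝ) T.card)
      have b2 := mul_le_mul_of_nonneg_right hN.le hn.le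
      have b3 : 0 ≤ (T.card : ℝ) * tr U := by positivity
      nlinarith
    rw [a2]
    have a5 := mul_le_mul_of_nonneg_left a1 (show 0 ≤ (200 * (N : ℝ)) ^ 2 by positivity)
    linarith
  have hS' : en u S q ≤ γ * tr U := by
    have e1 : en u S q = ∑ s : {s // s ∈ S}, nsq (cm (u s.1) q) :=
      (sum_coe_sort S fun r => nsq (cm (u r) q)).symm
    have a1 : ∀ s : {s // s ∈ S}, nsq (cm (u s.1) q) ≤ C s * ((β' + η) * tr U) := by
      intro s
      have := hW s n u hH.1 hH.2.1 Unit (fun _ => q) (η * tr U) (by have := hp2.1; positivity) (by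
        intro a ha b hb
        obtain ⟨c1, c2⟩ := hH.2.2.2.2.1 a (hp1 s (mem_univ _) ha) b (hp1 s (mem_univ _) hb)
        simp only [univ_unique, sum_singleton]
        constructor
        · rw [← hUq, ← Matrix.mul_assoc]
          exact (nsq_mul_le_right q1.mul_star_le _).trans c1
        · rw [← hqU, Matrix.mul_assoc]
          exact (nsq_mul_le_left q1.star_mul_le _).trans c2)
      simp only [univ_unique, sum_singleton] at this
      exact this.trans (mul_le_mul_of_nonneg_left (by linarith) (hC s))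
    have a2 := sum_le_sum fun s (_ : s ∈ (univ : Finset {s // s ∈ S})) => a1 s
    rw [← Finset.sum_mul] at a2
    rw [e1]
    refine a2.trans ?_
    have a3 := mul_le_mul_of_nonneg_right (add_le_add hβ2 hp2.2) hn.le
    linarith
  refine ⟨q, q1, hI q q1 hqU hq2 hS', ?_, ?_⟩
  · refine cut_le (by positivity) hU q1 hqU hf0 hf1 ?_
    have := rsmul_le hm.le q4
    rw [Matrix.mul_smul, Matrix.smul_mul, smul_smul, smul_smul, mul_inv_cancel₀ hm.ne',
      one_smul] at this
    rw [div_eq_mul_one_div]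
    exact this
  · intro r hr
    have a1 : nsq (cm (u r) q) ≤ en u T q :=
      single_le_sum (f := fun r => nsq (cm (u r) q)) (fun _ _ => nsq_nonneg _) hr
    have a2 := mul_le_mul_of_nonneg_right hβ1 hn.le
    linarith

theorem exists_finset {G : Type} [Group G] [DecidableEq G] (T : Set G) (g : G)
    (hg : g ∈ Subgroup.closure T) :
    ∃ A : Finset G, (A : Set G) ⊆ T ∧ g ∈ Subgroup.closure (A : Set G) := by
  induction hg using Subgroup.closure_induction with
  | mem x hx => exact ⟨{x}, by simpa using hx, Subgroup.subset_closure (by simp)⟩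
  | one => exact ⟨∅, by simp, Subgroup.one_mem _⟩
  | mul x y _ _ hx hy =>
    obtain ⟨A, a1, a2⟩ := hx
    obtain ⟨B, b1, b2⟩ := hy
    refine ⟨A ∪ B, ?_, Subgroup.mul_mem _ ?_ ?_⟩
    · rw [coe_union]; exact Set.union_subset a1 b1
    · exact Subgroup.closure_mono (by rw [coe_union]; exact Set.subset_union_left) a2
    · exact Subgroup.closure_mono (by rw [coe_union]; exact Set.subset_union_right) b2
  | inv x _ hx =>
    obtain ⟨A, a1, a2⟩ := hx
    exact ⟨A, a1, Subgroup.inv_mem _ a2⟩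

theorem cd (hTH : S_TH) (hCL : S_CL) (hLC : S_LC) : S_CD := by
  classical
  intro G _ S θ hS hT K γ τ hK hγ hτ
  choose A hA1 hA2 using fun g : G =>
    exists_finset {r : G | ∀ g, ∃ g', r * θ g * r⁻¹ = θ g'} g (by rw [hT]; trivial)
  set T : Finset G := S.biUnion A ∪ S.image θ with hTdef
  have hT1 : ∀ r ∈ T, ∀ g, ∃ g', r * θ g * r⁻¹ = θ g' := by
    intro r hr
    rcases mem_union.1 hr with hr | hr
    · obtain ⟨s, -, hs⟩ := mem_biUnion.1 hr
      exact hA1 s (mem_coe.2 hs)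
    · obtain ⟨s, -, rfl⟩ := mem_image.1 hr
      intro g
      exact ⟨s * g * s⁻¹, by rw [map_mul, map_mul, map_inv]⟩
  have hT2 : ∀ s ∈ S, s ∈ Subgroup.closure (T : Set G) := by
    intro s hs
    refine Subgroup.closure_mono ?_ (hA2 s)
    intro x hx
    exact mem_coe.2 (mem_union_left _ (mem_biUnion.2 ⟨s, hs, mem_coe.1 hx⟩))
  have hT3 : ∀ s ∈ S, θ s ∈ T := fun s hs => mem_union_right _ (mem_image_of_mem _ hs)
  set β : ℝ := τ / (2 * (6 * S.card + 1)) with hβ
  have hβ0 : 0 < β := by positivity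
  have hβ1 : 6 * S.card * β ≤ τ / 2 := by
    rw [hβ, ← mul_div_assoc, div_le_div_iff₀ (by positivity) (by positivity)]
    nlinarith
  obtain ⟨ζ, hζ, hD⟩ := stepD hTH hCL S T hT2 γ β hγ hβ0
  have hC := (eventually_all_finset T).2 fun r hr => stepC hLC S θ hS r (hT1 r hr) K ζ hK hζ
  have hall := (hD.and hC).and ((ev_small (G := G) 3 (τ / 2) (by positivity)).and
    (ev_small (G := G) (8002 * (1 + K)) (1 / 2000) (by positivity)))
  obtain ⟨pa, ha, pb, hb, hab⟩ := eventually_prod_iff.1 hall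
  obtain ⟨W, hW⟩ := hb.exists
  obtain ⟨η₀, hη₀, hsub⟩ := (mem_nhdsGT_iff_exists_Ioc_subset).1 ha
  refine ⟨η₀, W, hη₀, fun η h0 h1 => ?_⟩
  obtain ⟨⟨hD', hC'⟩, hs1, hs2⟩ := hab (hsub ⟨h0, h1⟩) hW
  simp only at hD' hC' hs1 hs2
  intro n _ _ u U hH hI m F hm hF hB ι _ y hy hE hO
  have hU := hH.2.2.1
  have hn := hH.2.2.2.1
  have hL1 := le_smul_one hm.le hU hy.2.1
  have hR1 := le_smul_one hm.le hU hy.2.2
  have hA : AA y ≤ 41 / 1000 * (m * tr U) := by
    have k1 := hB ι y hy (1 / 4000) (by norm_num)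
    have k2 := nsq_le_tr (LL_nonneg y) hL1
    have k3 := nsq_le_tr (RR_nonneg y) hR1
    rw [tr_LL] at k2
    rw [tr_RR] at k3
    have k4 : 4 * m * (1 + 1 / (1 / 4000)) * K * EE (fun g => u (θ g)) S y ≤
        4 * m * (1 + 1 / (1 / 4000)) * K * (η * (m * tr U)) :=
      mul_le_mul_of_nonneg_left hE (by positivity)
    have k5 := mul_le_mul_of_nonneg_right hs2.2 (show 0 ≤ 2 * m ^ 2 * tr U by positivity)
    have k6 := mul_le_mul_of_nonneg_right hF (show 0 ≤ 2 * m ^ 2 * tr U by positivity)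
    refine le_of_mul_le_mul_left ?_ (show 0 < 2 * m by positivity)
    nlinarith
  obtain ⟨p, p1, p2, p3, p4⟩ := hD' n u U hH hI m hm (LL y) (LL_nonneg y) hy.2.1
    (by rw [tr_LL]; exact hA) (fun r hr => (hC' r hr n u U hH m F hm hB ι y hy hE hO).1)
  obtain ⟨q, q1, q2, q3, q4⟩ := hD' n u U hH hI m hm (RR y) (RR_nonneg y) hy.2.2
    (by rw [tr_RR]; exact hA) (fun r hr => (hC' r hr n u U hH m F hm hB ι y hy hE hO).2)
  refine ⟨fun a => (1 - p) * y a * (1 - q), ⟨?_, ?_, ?_⟩, ?_, ?_⟩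
  · intro x
    have e : ∀ a, trace (((1 - p) * y a * (1 - q))ᴴ * x) =
        trace ((y a)ᴴ * ((1 - p) * x * (1 - q))) := by
      intro a
      rw [conjTranspose_mul, conjTranspose_mul, p1.compl.1, q1.compl.1, Matrix.mul_assoc,
        trace_mul_comm]
      simp only [Matrix.mul_assoc]
    simp only [e]
    exact (hy.1 _).trans ((nsq_mul_le_right q1.compl.mul_star_le _).trans
      (nsq_mul_le_left p1.compl.star_mul_le _))
  · refine le_trans ?_ p3
    rw [LL, LL, Finset.mul_sum, Finset.sum_mul]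
    refine sum_le_sum fun a _ => ?_
    have := conj_le' q1.compl.mul_star_le ((1 - p) * y a)
    rw [Matrix.mul_one, conjTranspose_mul, p1.compl.1] at this
    rw [conjTranspose_mul, conjTranspose_mul, p1.compl.1]
    simpa only [Matrix.mul_assoc] using this
  · refine le_trans ?_ q3
    rw [RR, RR, Finset.mul_sum, Finset.sum_mul]
    refine sum_le_sum fun a _ => ?_
    have := conj_le p1.compl.star_mul_le (y a * (1 - q))
    rw [Matrix.mul_one, conjTranspose_mul, q1.compl.1] at this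
    rw [conjTranspose_mul, conjTranspose_mul, q1.compl.1]
    simpa only [Matrix.mul_assoc] using this
  · have e : ∀ a, nsq (y a) - nsq (p * y a) - nsq (y a * q) ≤ nsq ((1 - p) * y a * (1 - q)) := by
      intro a
      rw [nsq_compl_right q1, nsq_compl_left p1, Matrix.mul_assoc]
      linarith [nsq_mul_le_left p1.compl.star_mul_le (y a * q)]
    have e2 := sum_le_sum fun a (_ : a ∈ (univ : Finset ι)) => e a
    rw [sum_sub_distrib, sum_sub_distrib] at e2
    have a1 := sum_left hL1 p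
    have a2 := sum_right hR1 q
    rw [p1.nsq_eq] at a1
    rw [q1.nsq_eq] at a2
    have a3 := mul_le_mul_of_nonneg_left p2 hm.le
    have a4 := mul_le_mul_of_nonneg_left q2 hm.le
    simp only [AA]
    linarith
  · have e : ∀ s ∈ S, ∑ a, nsq (cm (u (θ s)) ((1 - p) * y a * (1 - q))) ≤
        3 * ∑ a, nsq (cm (u (θ s)) (y a)) + 6 * (β * (m * tr U)) := by
      intro s hs
      have e1 : ∀ a, nsq (cm (u (θ s)) ((1 - p) * y a * (1 - q))) ≤
          3 * nsq (cm (u (θ s)) p * y a) + 3 * nsq (cm (u (θ s)) (y a)) +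
            3 * nsq (y a * cm (u (θ s)) q) := by
        intro a
        rw [cm_mul, cm_mul, Matrix.add_mul, cm_sub, cm_sub, cm_one, zero_sub, zero_sub]
        refine (nsq_add3_le _ _ _).trans ?_
        have b1 := nsq_mul_le_right q1.compl.mul_star_le (-cm (u (θ s)) p * y a)
        have b2 := (nsq_mul_le_right q1.compl.mul_star_le ((1 - p) * cm (u (θ s)) (y a))).trans
          (nsq_mul_le_left p1.compl.star_mul_le _)
        have b3 := nsq_mul_le_left p1.compl.star_mul_le (y a * -cm (u (θ s)) q)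
        rw [Matrix.neg_mul (cm (u (θ s)) p) (y a), nsq_neg] at b1
        rw [Matrix.mul_neg (y a), nsq_neg] at b3
        rw [Matrix.neg_mul (cm (u (θ s)) p) (y a), Matrix.mul_assoc (1 - p) (y a),
          Matrix.mul_neg (y a)]
        linarith
      have e2 := sum_le_sum fun a (_ : a ∈ (univ : Finset ι)) => e1 a
      rw [sum_add_distrib, sum_add_distrib, ← Finset.mul_sum, ← Finset.mul_sum,
        ← Finset.mul_sum] at e2
      have a1 := sum_left hL1 (cm (u (θ s)) p)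
      have a2 := sum_right hR1 (cm (u (θ s)) q)
      have a3 := mul_le_mul_of_nonneg_left (p4 _ (hT3 s hs)) hm.le
      have a4 := mul_le_mul_of_nonneg_left (q4 _ (hT3 s hs)) hm.le
      linarith
    have e2 := sum_le_sum e
    rw [sum_add_distrib, ← Finset.mul_sum, sum_const, nsmul_eq_mul] at e2
    simp only [EE, en] at hE ⊢
    rw [sum_comm] at hE ⊢
    have a1 := mul_le_mul_of_nonneg_right (add_le_add hβ1 hs1.2) (show 0 ≤ m * tr U by positivity)
    linarith

end Pool.Agent.H144Z.NH
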